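import Pool.Agent.Q146.HC.Rho

set_option autoImplicit false

/-!
# A circumscribed polygon and a convex polygon with the same Dirichlet spectrum

Let `P` be a convex polygon with an inscribed circle and `Q` any convex polygon, whose Dirichlet
spectra are equal, or only asymptotically equal in the mean. Remove common angles, and divide the
remaining multisets of angles by a common multiplicity. If what is left of `P` has at most two
elements, or if the ordered lists of what is left cross at most twice (in the right order, or in any
order if `Q` is circumscribed, too), then `Q` is circumscribed and has the same angles as `P`, and if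
these occur in the same cyclic order the polygons are congruent. In particular a rhombus is
determined by its spectrum among all centrally symmetric convex polygons, a circumscribed polygon with
alternately equal angles among all convex polygons with the corresponding rotational symmetry, and a
triangle among all convex polygons which have one of its angles.

Only the area, the perimeter and the constant term of the heat trace are used.
-/

open Pool.Agent.W780.PG (IsConvexPolygon region ang)
open Pool.Agent.Y289.HI (Circ)
open Pool.Agent.Q146.HC (MeanEq angles lst Crosses)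

namespace Pool.Agent.Results.MP_5b0138_an.CircumscribedComparison

/-- `P` and `Q` are congruent -/
def Congruent (P Q : Set ℂ) : Prop := ∃ φ : ℂ ≃ᵢ ℂ, φ '' P = Q

/-- `IsConvexPolygon p`: the points `p 0`, `p 1`, … are the vertices of a convex polygon, in
counterclockwise order; `region p` is its interior, `ang p i` the angle at `p i` and `angles p` the
multiset of the angles. `Circ p`: its sides touch a circle. `MeanEq`: the Dirichlet spectra are
asymptotically equal in the mean (for instance equal). `lst M`: the elements of `M` in increasing
order, continued by `π`.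
(1) The comparison theorem. (2) The case of equal angles. (3)-(5) Its consequences for triangles,
rhombi and circumscribed polygons with alternately equal angles. -/
theorem result :
    (∀ (n m : ℕ) (p : Fin (n + 3) → ℂ) (q : Fin (m + 3) → ℂ) (k : ℕ) (C D E : Multiset ℝ),
      IsConvexPolygon p → IsConvexPolygon q → Circ p → MeanEq (region p) (region q) → 0 < k →
      angles p = C + k • E → angles q = C + k • D →
      (Multiset.card E ≤ 2 ∨ Crosses (lst E) (lst D) ∨ Circ q ∧ Crosses (lst D) (lst E)) →
      Circ q ∧ angles p = angles q) ∧
    (∀ (n : ℕ) (p q : Fin (n + 3) → ℂ) (s : Fin (n + 3)), IsConvexPolygon p → IsConvexPolygon q →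
      Circ p → MeanEq (region p) (region q) →
      ((∀ i, ang q (i + s) = ang p i) ∨ ∀ i, ang q (s - i) = ang p i) →
      Congruent (region p) (region q)) ∧
    (∀ (m : ℕ) (p : Fin (0 + 3) → ℂ) (q : Fin (m + 3) → ℂ), IsConvexPolygon p →
      IsConvexPolygon q → MeanEq (region p) (region q) →
      (Congruent (region p) (region q) ∨ (lst (angles p) 0 < lst (angles q) 0 ∧
        lst (angles q) 1 < lst (angles p) 1 ∧ lst (angles p) 2 < lst (angles q) 2)) ∧
      ∀ i j, ang p i = ang q j → Congruent (region p) (region q)) ∧
    (∀ (m : ℕ) (p : Fin (1 + 3) → ℂ) (q : Fin (m + 3) → ℂ) (s : Fin (m + 3)) (w : ℂ),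
      IsConvexPolygon p → IsConvexPolygon q → MeanEq (region p) (region q) →
      p 0 + p 2 = p 1 + p 3 → ‖p 1 - p 0‖ = ‖p 2 - p 1‖ → (∀ i, q (i + s) = 2 * w - q i) →
      Congruent (region p) (region q)) ∧
    ∀ (k d n m : ℕ) (p : Fin (n + 3) → ℂ) (q : Fin (m + 3) → ℂ), n + 3 = 2 * k →
      m + 3 = k * d → IsConvexPolygon p → IsConvexPolygon q → Circ p →
      MeanEq (region p) (region q) → (∀ i, ang p (i + 2) = ang p i) →
      (∀ i j : Fin (m + 3), (j : ℕ) = i + d → ang q j = ang q i) →
      Congruent (region p) (region q) :=
  ⟨fun _ _ _ _ _ _ _ _ hp hq hc h hk e1 e2 hx =>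
      Pool.Agent.Q146.HC.main' hp hq hc h hk e1 e2 hx,
    fun _ _ _ s hp hq hc h hs => hs.elim (Pool.Agent.Q146.HC.congr_shift hp hq hc h s)
      (Pool.Agent.Q146.HC.congr_refl hp hq hc h s),
    fun _ _ _ hp hq h => ⟨by
      rw [← Pool.Agent.Q146.HC.angs_eq hp, ← Pool.Agent.Q146.HC.angs_eq hq]
      exact Pool.Agent.Q146.HC.triangle hp hq h,
      fun _ _ hij => Pool.Agent.Q146.HC.tri_common hp hq h hij⟩,
    fun _ _ _ _ _ hp hq h h1 h2 h3 => Pool.Agent.Q146.HC.rhombus hp hq h h1 h2 h3,
    fun _ _ _ _ _ _ hn hd hp hq hc h h1 h2 => Pool.Agent.Q146.HC.rot hn hd hp hq hc h h1 h2⟩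

end Pool.Agent.Results.MP_5b0138_an.CircumscribedComparison
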