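import Pool.Agent.Y289.HI.All3
import Pool.Agent.Y459.HI.Vs

set_option autoImplicit false

/-!
# Circumscribed polygons with all angles equal but one are determined by their Dirichlet spectrum

Let `P` be a convex polygon, with any number of vertices, whose sides touch a circle and whose
interior angles are all equal, except one which is at least as large (for instance a regular
polygon, or an isosceles triangle whose apex angle is at least `π / 3`). If a convex polygon, with
any number of vertices, has the same Dirichlet spectrum, then it is congruent to `P`.

The proof uses the heat trace of a convex polygon, of which the expansion is proved in the library,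
Lhuilier's inequality and its equality case, and an equal variable theorem for the corner terms.
-/

open Complex
open Pool.Agent.W780.PG (IsConvexPolygon region ang lft)
open Pool.Agent.W703.GP (Isospectral)

namespace Pool.Agent.Results.MP_5b0138_an.CircumscribedPolygons

/-- First part: `p` lists the vertices of a convex polygon; the point `o` has the same distance `r`
from all the sides; all the interior angles are `α`, but the one at the vertex number `k`, which is
at least `α`. Second part: the regular polygons with `n + 3` vertices, of arbitrary centre `v`, size
and position. In both parts the interior of the convex hull of the finite set `S`, if not empty, is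
an arbitrary convex polygon. -/
theorem result :
    (∀ (n : ℕ) (p : Fin (n + 3) → ℂ), IsConvexPolygon p →
      (∃ (o : ℂ) (r : ℝ), 0 < r ∧ ∀ i, lft (p i) (p (i + 1)) o = r * ‖p (i + 1) - p i‖) →
      ∀ (k : Fin (n + 3)) (α : ℝ), (∀ j, j ≠ k → ang p j = α) → α ≤ ang p k →
      ∀ S : Set ℂ, S.Finite → (interior (convexHull ℝ S)).Nonempty →
        Isospectral (region p) (interior (convexHull ℝ S)) →
        ∃ φ : ℂ ≃ᵢ ℂ, φ '' region p = interior (convexHull ℝ S)) ∧
    ∀ (n : ℕ) (c v : ℂ), c ≠ 0 →
      ∀ S : Set ℂ, S.Finite → (interior (convexHull ℝ S)).Nonempty →
        Isospectral (region fun j : Fin (n + 3) =>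
          c * cexp (2 * Real.pi * (j : ℕ) / (n + 3) * I) + v) (interior (convexHull ℝ S)) →
        ∃ φ : ℂ ≃ᵢ ℂ, φ '' (region fun j : Fin (n + 3) =>
          c * cexp (2 * Real.pi * (j : ℕ) / (n + 3) * I) + v) = interior (convexHull ℝ S) := by
  constructor
  · intro n p hp hc k α h1 h2 S hS hne hiso
    obtain ⟨m, q, hq, e⟩ := Pool.Agent.Y459.HI.vs S hS hne
    rw [← e] at hiso ⊢
    exact Pool.Agent.Y289.HI.circ n m p hp hc k α h1 h2 q hq hiso
  · intro n c v hc S hS hne hiso
    obtain ⟨m, q, hq, e⟩ := Pool.Agent.Y459.HI.vs S hS hne
    rw [← e] at hiso ⊢
    exact Pool.Agent.Y289.HI.regular n m c v hc q hq hiso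

end Pool.Agent.Results.MP_5b0138_an.CircumscribedPolygons
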