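import Pool.Agent.Q201.KT.Reg
import Pool.Agent.Y459.HI.Vs

set_option autoImplicit false

/-!
# A regular polygon is determined among all convex polygons by a tail of its Dirichlet spectrum

Let `P` be a regular polygon with `n + 3` vertices and `Q` an arbitrary convex polygon. Of the
Dirichlet spectrum of `P` the lowest `s` eigenvalues are dropped, of that of `Q` the lowest `s'`; the
numbers `s` and `s'` are arbitrary and need not be equal. If the two remaining sequences are
asymptotically equal in the mean, that is, if the mean of the first `N` absolute differences tends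
to `0` (for instance, if the remaining sequences are equal, or if the differences tend to `0`), then
`s = s'` and `Q` is congruent to `P`.
-/

open Complex Filter Topology
open Pool.Agent.W780.PG (region)
open Pool.Agent.W703.GP (dirichletEigenvalue)

namespace Pool.Agent.Results.MP_5b0138_an.RegularPolygonTail

/-- The regular polygon `P` is the interior of the convex hull of the points
`c exp (2 π i j / (n + 3)) + v`, `0 ≤ j < n + 3`, with `c ≠ 0`; the convex polygon `Q` is the interior
of the convex hull of the finite set `S`. `dirichletEigenvalue Ω k` is the `k`-th Dirichlet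
eigenvalue of `Ω`, `k = 1, 2, …`, with multiplicity. -/
theorem result (n : ℕ) (c v : ℂ) (hc : c ≠ 0) (P : Set ℂ)
    (hP : P = interior (convexHull ℝ
      (Set.range fun j : Fin (n + 3) => c * cexp (2 * Real.pi * (j : ℕ) / (n + 3) * I) + v)))
    (S : Set ℂ) (hS : S.Finite) (hne : (interior (convexHull ℝ S)).Nonempty) (s s' : ℕ)
    (hmean : Tendsto (fun N : ℕ => (∑ k ∈ Finset.range N,
      |dirichletEigenvalue P (k + 1 + s) -
        dirichletEigenvalue (interior (convexHull ℝ S)) (k + 1 + s')|) / N) atTop (𝓝 0)) :
    s = s' ∧ ∃ φ : ℂ ≃ᵢ ℂ, φ '' P = interior (convexHull ℝ S) := by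
  subst hP
  obtain ⟨m, q, hq, e⟩ := Pool.Agent.Y459.HI.vs S hS hne
  rw [← e] at hmean ⊢
  exact Pool.Agent.Q201.KT.reg n m hc hq hmean

end Pool.Agent.Results.MP_5b0138_an.RegularPolygonTail
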