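import Pool.Agent.Q201.KT.Tri

set_option autoImplicit false

/-!
# A triangle is determined by a tail of its Dirichlet spectrum

Two triangles are given. Of the Dirichlet spectrum of the first one the lowest `s` eigenvalues are
dropped, of that of the second one the lowest `s'`; the numbers `s` and `s'` are arbitrary and need
not be equal. If the two remaining sequences are asymptotically equal in the mean, that is, if the
mean of the first `N` absolute differences tends to `0` (for instance, if the remaining sequences
are equal, or if the differences tend to `0`), then `s = s'` and the triangles are congruent.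
-/

open Filter Topology
open Pool.Agent.W703.GP (dirichletEigenvalue)

namespace Pool.Agent.Results.MP_5b0138_an.TriangleTail

/-- `dirichletEigenvalue Ω k` is the `k`-th Dirichlet eigenvalue of `Ω`, `k = 1, 2, …`, with
multiplicity. -/
theorem result (a b c a' b' c' : ℂ) (h : ¬Collinear ℝ {a, b, c}) (h' : ¬Collinear ℝ {a', b', c'})
    (s s' : ℕ)
    (hmean : Tendsto (fun N : ℕ => (∑ k ∈ Finset.range N,
      |dirichletEigenvalue (interior (convexHull ℝ {a, b, c})) (k + 1 + s) -
        dirichletEigenvalue (interior (convexHull ℝ {a', b', c'})) (k + 1 + s')|) / N)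
      atTop (𝓝 0)) :
    s = s' ∧ ∃ φ : ℂ ≃ᵢ ℂ,
      φ '' interior (convexHull ℝ {a, b, c}) = interior (convexHull ℝ {a', b', c'}) := by
  obtain ⟨p, hp, e⟩ := Pool.Agent.Q201.KT.exists_ccw h
  obtain ⟨q, hq, e'⟩ := Pool.Agent.Q201.KT.exists_ccw h'
  rw [← e, ← e'] at hmean ⊢
  exact Pool.Agent.Q201.KT.tri hp hq hmean

end Pool.Agent.Results.MP_5b0138_an.TriangleTail
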